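import Pool.Agent.H867.FT.Gen10
import Pool.Agent.H746.FT867CMP

/-!
# Frobenius identities extend to the completion
-/

set_option autoImplicit false

namespace Pool.Agent.H134.FT867CXU

open Pool.Agent.H867.FT IsLocalRing

/-- **CXU.** -/
theorem cxu : Pool.Agent.H867.FT.S_CXU := by
  intro q n R S _ _ _ _ ι hq hdense φ ψ u c hψ hψι hid s
  set m := maximalIdeal S with hm
  have key : ∀ k : ℕ, ι c ^ q * s - ∑ j, ψ j s ^ q * ι (u j) ∈ m ^ k := by
    intro k
    have hN := fun j => Pool.Agent.H746.FT867CMP.unif (q := q) m (ψ j) (hψ j) k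
    choose N hN using hN
    obtain ⟨r, hr⟩ := hdense (k + ∑ j, N j) s
    have hrk : s - ι r ∈ m ^ k := Ideal.pow_le_pow_right (by omega) hr
    have hrj : ∀ j, s - ι r ∈ m ^ N j := fun j => by
      refine Ideal.pow_le_pow_right ?_ hr
      have := Finset.single_le_sum (f := N) (fun i _ => Nat.zero_le _) (Finset.mem_univ j)
      omega
    have h1 : ι c ^ q * ι r = ∑ j, ψ j (ι r) ^ q * ι (u j) := by
      rw [← map_pow, ← map_mul, hid r, map_sum]
      refine Finset.sum_congr rfl fun j _ => ?_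
      rw [map_mul, map_pow, hψι]
    have h2 : ι c ^ q * s - ∑ j, ψ j s ^ q * ι (u j) =
        ι c ^ q * (s - ι r) - ∑ j, (ψ j s ^ q - ψ j (ι r) ^ q) * ι (u j) := by
      simp only [sub_mul, Finset.sum_sub_distrib, mul_sub]
      rw [h1]
      ring
    rw [h2]
    refine Ideal.sub_mem _ (Ideal.mul_mem_left _ _ hrk) (Ideal.sum_mem _ fun j _ => ?_)
    refine Ideal.mul_mem_right _ _ ?_
    obtain ⟨t, ht⟩ := sub_dvd_pow_sub_pow (ψ j s) (ψ j (ι r)) q
    rw [ht, ← map_sub]
    exact Ideal.mul_mem_right _ _ (hN j _ (hrj j))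
  have h0 : ι c ^ q * s - ∑ j, ψ j s ^ q * ι (u j) ∈ (⨅ k : ℕ, m ^ k : Ideal S) := by
    rw [Ideal.mem_iInf]
    exact key
  rw [Ideal.iInf_pow_eq_bot_of_isLocalRing m (Ideal.IsPrime.ne_top inferInstance),
    Ideal.mem_bot] at h0
  exact sub_eq_zero.1 h0

end Pool.Agent.H134.FT867CXU
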