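import Pool.Agent.H770.SN.Stm

/-!
# SN2 (helper134, for helper770): the Steiner symmetral of a compact set is compact
-/

set_option autoImplicit false

open Set Function

namespace Pool.Agent.H134.SN2

open Pool.Agent.H770.SN

theorem t_Stc : S_Stc := by
  intro n i K hK
  have hcl : IsClosed {p : (Fin n → ℝ) × (Fin n → ℝ) | ∀ j, j ≠ i → p.1 j = p.2 j} := by
    simp only [setOf_forall]
    refine isClosed_iInter fun j => isClosed_iInter fun _ => ?_
    exact isClosed_eq ((continuous_apply j).comp continuous_fst)
      ((continuous_apply j).comp continuous_snd)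
  have hc : IsCompact ((K ×ˢ K) ∩ {p : (Fin n → ℝ) × (Fin n → ℝ) | ∀ j, j ≠ i → p.1 j = p.2 j}) :=
    (hK.prod hK).inter_right hcl
  have hf : Continuous (fun p : (Fin n → ℝ) × (Fin n → ℝ) =>
      update p.1 i ((p.1 i - p.2 i) / 2)) := by
    refine Continuous.update continuous_fst i ?_
    exact (((continuous_apply i).comp continuous_fst).sub
      ((continuous_apply i).comp continuous_snd)).div_const 2
  have he : St i K = (fun p : (Fin n → ℝ) × (Fin n → ℝ) =>
      update p.1 i ((p.1 i - p.2 i) / 2)) ''
      ((K ×ˢ K) ∩ {p : (Fin n → ℝ) × (Fin n → ℝ) | ∀ j, j ≠ i → p.1 j = p.2 j}) := by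
    ext x
    constructor
    · rintro ⟨a, b, ha, hb, hx⟩
      refine ⟨(update x i a, update x i b), ⟨⟨ha, hb⟩, ?_⟩, ?_⟩
      · intro j hj
        simp only [update_of_ne hj]
      · simp only [update_self, update_idem]
        rw [← hx, update_eq_self]
    · rintro ⟨⟨u, v⟩, ⟨⟨hu, hv⟩, huv⟩, rfl⟩
      refine ⟨u i, v i, ?_, ?_, ?_⟩
      · simp only [update_idem, update_eq_self]
        exact hu
      · simp only [update_idem]
        have : update u i (v i) = v := by
          ext j
          by_cases hj : j = i
          · subst hj
            rw [update_self]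
          · rw [update_of_ne hj]
            exact huv j hj
        rw [this]
        exact hv
      · simp only [update_self]
  rw [he]
  exact hc.image hf

end Pool.Agent.H134.SN2
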