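import Pool.Agent.H133.ZM.Stm

/-!
# Project ZM: zero-sum subsets away from the most frequent value
-/

set_option autoImplicit false

namespace Pool.Agent.H134.ZM

open Finset Pool.Agent.H133.ZM

/-- **gao.** -/
theorem t_gao (h : S_bgl) : S_gao := by
  intro m _ ι _ M c hNZ hmax
  have key : ∀ N : ℕ, ∀ F ⊆ M, F.card = N → (∀ e ∈ F, c e ≠ 0) → ∑ e ∈ F, c e = 0 →
      F.card + mu M c 0 + 1 ≤ m := by
    intro N
    induction N using Nat.strong_induction_on with
    | _ N ih =>
      intro F hF hN hne hsum
      by_cases hm : F.card ≤ m
      · by_contra hcon
        have h1 : m - F.card ≤ (M.filter (fun e => c e = 0)).card := by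
          unfold mu at hcon
          omega
        obtain ⟨Y, hY, hYc⟩ := Finset.exists_subset_card_eq h1
        have hY0 : ∀ e ∈ Y, c e = 0 := fun e he => (Finset.mem_filter.1 (hY he)).2
        have hdisj : Disjoint F Y := by
          rw [Finset.disjoint_left]
          intro e he he'
          exact hne e he (hY0 e he')
        refine hNZ (F ∪ Y) ?_ ?_ ?_
        · exact Finset.union_subset hF (hY.trans (Finset.filter_subset _ _))
        · rw [Finset.card_union_of_disjoint hdisj, hYc]
          omega
        · rw [Finset.sum_union hdisj, hsum, Finset.sum_eq_zero hY0, add_zero]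
      · exfalso
        obtain ⟨F1, hF1, hF1ne, hF1c, hF1s⟩ := h m ι F c (mu M c 0) (fun x => by
          refine le_trans ?_ (hmax x)
          exact Finset.card_le_card (Finset.filter_subset_filter _ hF)) (by omega)
        have hc1 : (F \ F1).card + F1.card = F.card := Finset.card_sdiff_add_card_eq_card hF1
        have hpos : 0 < F1.card := Finset.card_pos.2 hF1ne
        have h2 := ih (F \ F1).card (by omega) (F \ F1) (Finset.sdiff_subset.trans hF) rfl
          (fun e he => hne e (Finset.sdiff_subset he)) (by
            have := Finset.sum_sdiff (f := c) hF1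
            rw [hF1s, add_zero, hsum] at this
            exact this)
        omega
  intro F hF hne hsum
  exact key F.card F hF rfl hne hsum

end Pool.Agent.H134.ZM
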